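import Pool.Agent.Y472.A.Defs

/-!
Nilpotency at a root of unity (helper574, job 406 of helper472).
-/

set_option autoImplicit false

namespace Pool.Agent.Y574.CB

open Finset Pool.Agent.Y472

/-- Gaussian binomials -/
noncomputable def gb (q : ℂ) : ℕ → ℕ → ℂ
  | _, 0 => 1
  | 0, _ + 1 => 0
  | n + 1, k + 1 => q ^ (k + 1) * gb q n (k + 1) + gb q n k

theorem gb_zero (q : ℂ) (n : ℕ) : gb q n 0 = 1 := by cases n <;> rfl

theorem gb_succ (q : ℂ) (n k : ℕ) :
    gb q (n + 1) (k + 1) = q ^ (k + 1) * gb q n (k + 1) + gb q n k := rfl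

theorem gb_gt (q : ℂ) : ∀ n k : ℕ, n < k → gb q n k = 0
  | 0, k + 1, _ => rfl
  | n + 1, k + 1, h => by
    rw [gb_succ, gb_gt q n (k + 1) (by omega), gb_gt q n k (by omega)]
    ring

theorem gb_self (q : ℂ) : ∀ n : ℕ, gb q n n = 1
  | 0 => rfl
  | n + 1 => by
    rw [gb_succ, gb_gt q n (n + 1) (by omega), gb_self q n]
    ring

theorem gb_mul (q : ℂ) : ∀ n k : ℕ, gb q n k * ∏ i ∈ range k, (1 - q ^ (i + 1)) =
    ∏ i ∈ range k, (1 - q ^ (n - i))
  | n, 0 => by simp [gb_zero]
  | 0, k + 1 => by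
    rw [prod_range_succ' (fun i => (1 - q ^ (0 - i))) k]
    simp [gb]
  | n + 1, k + 1 => by
    have h1 := gb_mul q n (k + 1)
    have h2 := gb_mul q n k
    rw [gb_succ, prod_range_succ' (fun i => (1 - q ^ (n + 1 - i))) k]
    simp only [Nat.add_sub_add_right, Nat.sub_zero]
    rw [prod_range_succ] at h1 ⊢
    rw [prod_range_succ] at h1
    by_cases hk : k ≤ n
    · obtain ⟨d, rfl⟩ := Nat.exists_eq_add_of_le hk
      rw [Nat.add_sub_cancel_left] at h1
      have e : q ^ (k + d + 1) = q ^ (k + 1) * q ^ d := by rw [← pow_add]; congr 1; omega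
      rw [e]
      linear_combination q ^ (k + 1) * h1 + (1 - q ^ (k + 1)) * h2
    · have h3 : gb q n k = 0 := gb_gt q n k (by omega)
      have h4 : gb q n (k + 1) = 0 := gb_gt q n (k + 1) (by omega)
      rw [h3, zero_mul] at h2
      rw [h3, h4, ← h2]
      ring

/-- the middle coefficients vanish at a root of unity -/
theorem gb_root {N : ℕ} {q : ℂ} (hq : IsPrimitiveRoot q N) (k : ℕ) (h0 : 0 < k) (hN : k < N) :
    gb q N k = 0 := by
  have h1 := gb_mul q N k
  have h2 : ∏ i ∈ range k, (1 - q ^ (N - i)) = 0 := by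
    refine prod_eq_zero (mem_range.mpr h0) ?_
    rw [Nat.sub_zero, hq.pow_eq_one, sub_self]
  have h3 : ∏ i ∈ range k, (1 - q ^ (i + 1)) ≠ 0 := by
    refine prod_ne_zero_iff.mpr fun i hi => ?_
    have := hq.pow_ne_one_of_pos_of_lt (l := i + 1) (by omega) (by have := mem_range.mp hi; omega)
    exact sub_ne_zero.mpr fun h => this h.symm
  rw [h2] at h1
  exact (mul_eq_zero.mp h1).resolve_right h3

section

variable {R : Type*} [Ring R] [Algebra ℂ R] {A B : R} {q : ℂ}

theorem comm_pow (h : A * B = q • (B * A)) (k : ℕ) : A * B ^ k = q ^ k • (B ^ k * A) := by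
  induction k with
  | zero => simp
  | succ k ih =>
    rw [pow_succ, ← mul_assoc, ih, smul_mul_assoc, mul_assoc, h, mul_smul_comm, smul_smul,
      ← mul_assoc, ← pow_succ, pow_succ]

theorem qbin (h : A * B = q • (B * A)) (n : ℕ) :
    (A + B) ^ n = ∑ k ∈ range (n + 1), gb q n k • (B ^ k * A ^ (n - k)) := by
  induction n with
  | zero => simp [gb_zero]
  | succ n ih =>
    rw [pow_succ', ih, add_mul, mul_sum, mul_sum, sum_range_succ' _ (n + 1)]
    have h1 : ∀ k, A * (gb q n k • (B ^ k * A ^ (n - k))) =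
        (q ^ k * gb q n k) • (B ^ k * A ^ (n - k + 1)) := by
      intro k
      rw [mul_smul_comm, ← mul_assoc, comm_pow h, smul_mul_assoc, smul_smul, mul_assoc,
        ← pow_succ', mul_comm]
    have h2 : ∀ k, B * (gb q n k • (B ^ k * A ^ (n - k))) =
        gb q n k • (B ^ (k + 1) * A ^ (n - k)) := by
      intro k
      rw [mul_smul_comm, ← mul_assoc, ← pow_succ']
    simp only [h1, h2]
    have h3 : ∑ k ∈ range (n + 1), (q ^ k * gb q n k) • (B ^ k * A ^ (n - k + 1)) =
        ∑ k ∈ range (n + 1), (q ^ (k + 1) * gb q n (k + 1)) • (B ^ (k + 1) * A ^ (n - k)) +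
          A ^ (n + 1) := by
      rw [sum_range_succ' _ n, sum_range_succ _ n, gb_gt q n (n + 1) (by omega)]
      simp only [mul_zero, zero_smul, add_zero, pow_zero, gb_zero, one_mul, one_smul, Nat.sub_zero]
      congr 1
      refine sum_congr rfl fun k hk => ?_
      have := mem_range.mp hk
      rw [show n - (k + 1) + 1 = n - k by omega]
    rw [h3]
    simp only [gb_zero, pow_zero, one_mul, one_smul, Nat.sub_zero, Nat.add_sub_add_right]
    rw [add_right_comm, ← sum_add_distrib]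
    congr 1
    refine sum_congr rfl fun k _ => ?_
    rw [gb_succ, add_smul]

theorem pow_root {N : ℕ} (hN : 0 < N) (h : A * B = q • (B * A)) (hq : IsPrimitiveRoot q N) :
    (A + B) ^ N = A ^ N + B ^ N := by
  rw [qbin h]
  obtain ⟨M, rfl⟩ : ∃ M, N = M + 1 := ⟨N - 1, by omega⟩
  rw [sum_range_succ, sum_range_succ', sum_eq_zero, gb_zero, gb_self]
  · simp
  · intro k hk
    rw [gb_root hq (k + 1) (by omega) (by have := mem_range.mp hk; omega), zero_smul]

end

/-- shift in the first variable -/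
noncomputable def EA (w l : ℂ) : V2 →ₗ[ℂ] V2 where
  toFun x a b := lb w l (-1 - a) * KK w l b * x (a + 1) b
  map_add' x y := by funext a b; simp only [Pi.add_apply]; ring
  map_smul' c x := by funext a b; simp only [Pi.smul_apply, smul_eq_mul, RingHom.id_apply]; ring

noncomputable def EB (w l : ℂ) : V2 →ₗ[ℂ] V2 where
  toFun x a b := lb w l (-1 - b) * x a (b + 1)
  map_add' x y := by funext a b; simp only [Pi.add_apply]; ring
  map_smul' c x := by funext a b; simp only [Pi.smul_apply, smul_eq_mul, RingHom.id_apply]; ring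

noncomputable def FA (w : ℂ) : V2 →ₗ[ℂ] V2 where
  toFun x a b := qi w a * x (a - 1) b
  map_add' x y := by funext a b; simp only [Pi.add_apply]; ring
  map_smul' c x := by funext a b; simp only [Pi.smul_apply, smul_eq_mul, RingHom.id_apply]; ring

noncomputable def FB (w l : ℂ) : V2 →ₗ[ℂ] V2 where
  toFun x a b := (KK w l a)⁻¹ * qi w b * x a (b - 1)
  map_add' x y := by funext a b; simp only [Pi.add_apply]; ring
  map_smul' c x := by funext a b; simp only [Pi.smul_apply, smul_eq_mul, RingHom.id_apply]; ring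

theorem E2_eq (w l : ℂ) : E2 w l = EA w l + EB w l := by
  refine LinearMap.ext fun x => ?_
  rfl

theorem F2_eq (w l : ℂ) : F2 w l = FA w + FB w l := by
  refine LinearMap.ext fun x => ?_
  rfl

theorem KK_succ {w : ℂ} (hw : w ≠ 0) (l : ℂ) (a : ℕ) : KK w l a = w ^ 2 * KK w l (a + 1) := by
  unfold KK
  have : w ^ (-1 - 2 * (a : ℤ)) = w ^ 2 * w ^ (-1 - 2 * ((a + 1 : ℕ) : ℤ)) := by
    rw [← zpow_natCast w 2, ← zpow_add₀ hw]
    congr 1
    push_cast
    ring
  rw [this]
  ring

theorem E_comm {w : ℂ} (hw : w ≠ 0) (l : ℂ) : (EA w l * EB w l : Module.End ℂ V2) =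
    (w ^ 2) • (EB w l * EA w l : Module.End ℂ V2) := by
  refine LinearMap.ext fun x => ?_
  funext a b
  show lb w l (-1 - a) * KK w l b * (lb w l (-1 - b) * x (a + 1) (b + 1)) =
    w ^ 2 * (lb w l (-1 - b) * (lb w l (-1 - a) * KK w l (b + 1) * x (a + 1) (b + 1)))
  rw [KK_succ hw l b]
  ring

theorem qi_zero (w : ℂ) : qi w 0 = 0 := by simp [qi, cb]

theorem F_comm {w l : ℂ} (hw : w ≠ 0) (hl : l ≠ 0) : (FA w * FB w l : Module.End ℂ V2) =
    ((w ^ 2)⁻¹) • (FB w l * FA w : Module.End ℂ V2) := by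
  refine LinearMap.ext fun x => ?_
  funext a b
  show qi w a * ((KK w l (a - 1 : ℕ))⁻¹ * qi w b * x (a - 1) (b - 1)) =
    (w ^ 2)⁻¹ * ((KK w l a)⁻¹ * qi w b * (qi w a * x (a - 1) (b - 1)))
  rcases a with _ | a
  · simp [qi_zero]
  · rw [Nat.add_sub_cancel, KK_succ hw l a, mul_inv]
    ring

theorem EA_pow (w l : ℂ) (n : ℕ) : ∃ c : ℕ → ℕ → ℂ, ∀ (x : V2) (a b : ℕ),
    ((EA w l ^ n : Module.End ℂ V2) x) a b = c a b * x (a + n) b := by
  induction n with
  | zero => exact ⟨fun _ _ => 1, fun x a b => by simp⟩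
  | succ n ih =>
    obtain ⟨c, hc⟩ := ih
    refine ⟨fun a b => lb w l (-1 - a) * KK w l b * c (a + 1) b, fun x a b => ?_⟩
    rw [pow_succ', Module.End.mul_apply]
    show lb w l (-1 - a) * KK w l b * ((EA w l ^ n : Module.End ℂ V2) x) (a + 1) b = _
    rw [hc, show a + 1 + n = a + (n + 1) by omega]
    ring

theorem EB_pow (w l : ℂ) (n : ℕ) : ∃ c : ℕ → ℕ → ℂ, ∀ (x : V2) (a b : ℕ),
    ((EB w l ^ n : Module.End ℂ V2) x) a b = c a b * x a (b + n) := by
  induction n with
  | zero => exact ⟨fun _ _ => 1, fun x a b => by simp⟩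
  | succ n ih =>
    obtain ⟨c, hc⟩ := ih
    refine ⟨fun a b => lb w l (-1 - b) * c a (b + 1), fun x a b => ?_⟩
    rw [pow_succ', Module.End.mul_apply]
    show lb w l (-1 - b) * ((EB w l ^ n : Module.End ℂ V2) x) a (b + 1) = _
    rw [hc, show b + 1 + n = b + (n + 1) by omega]
    ring

theorem FA_pow (w : ℂ) (n : ℕ) (x : V2) (a b : ℕ) :
    ((FA w ^ n : Module.End ℂ V2) x) a b = (∏ t ∈ range n, qi w ((a - t : ℕ) : ℤ)) * x (a - n) b := by
  induction n generalizing a with
  | zero => simp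
  | succ n ih =>
    rw [pow_succ', Module.End.mul_apply]
    show qi w a * ((FA w ^ n : Module.End ℂ V2) x) (a - 1) b = _
    rw [ih, prod_range_succ', Nat.sub_zero, show a - 1 - n = a - (n + 1) by omega]
    have : ∀ t, a - 1 - t = a - (t + 1) := fun t => by omega
    simp only [this]
    ring

theorem FB_pow (w l : ℂ) (n : ℕ) (x : V2) (a b : ℕ) :
    ((FB w l ^ n : Module.End ℂ V2) x) a b =
      (KK w l a)⁻¹ ^ n * (∏ t ∈ range n, qi w ((b - t : ℕ) : ℤ)) * x a (b - n) := by
  induction n generalizing b with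
  | zero => simp
  | succ n ih =>
    rw [pow_succ', Module.End.mul_apply]
    show (KK w l a)⁻¹ * qi w b * ((FB w l ^ n : Module.End ℂ V2) x) a (b - 1) = _
    rw [ih, prod_range_succ', Nat.sub_zero, show b - 1 - n = b - (n + 1) by omega]
    have : ∀ t, b - 1 - t = b - (t + 1) := fun t => by omega
    simp only [this]
    ring

theorem prod_qi {N : ℕ} {w : ℂ} (h : Rt N w) (a : ℕ) :
    ∏ t ∈ range N, qi w ((a - t : ℕ) : ℤ) = 0 := by
  have hN : 0 < N := by have := h.pos; omega
  refine prod_eq_zero (mem_range.mpr (Nat.mod_lt a hN)) ?_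
  have e : a - a % N = N * (a / N) := by
    have := Nat.div_add_mod a N
    omega
  rw [e, qi, zpow_natCast, pow_mul, h.neg, cb]
  rcases neg_one_pow_eq_or ℂ (a / N) with h1 | h1 <;> rw [h1] <;> norm_num

theorem nil : S_NIL := by
  intro N w l h hl x hx
  have hN : 0 < N := by have := h.pos; omega
  have hw : w ≠ 0 := by
    intro h0
    have := h.nrm
    rw [h0, norm_zero] at this
    exact zero_ne_one this
  constructor
  · rw [← Module.End.pow_apply, E2_eq, pow_root hN (E_comm hw l) h.prim, LinearMap.add_apply]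
    obtain ⟨c, hc⟩ := EA_pow w l N
    obtain ⟨c', hc'⟩ := EB_pow w l N
    funext a b
    rw [Pi.add_apply, Pi.add_apply, hc, hc', hx (a + N) b (Or.inl (by omega)),
      hx a (b + N) (Or.inr (by omega))]
    simp
  · rw [← Module.End.pow_apply, F2_eq, pow_root hN (F_comm hw hl) h.prim.inv,
      LinearMap.add_apply]
    funext a b
    rw [Pi.add_apply, Pi.add_apply, FA_pow, FB_pow, prod_qi h, prod_qi h]
    simp

end Pool.Agent.Y574.CB
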