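import Pool.Agent.W398.HT.RRD2

/-! Derivatives of the limit functions near a general base point. -/

set_option autoImplicit false

namespace Pool.Agent.Y574.CB

open Filter Topology Metric MeasureTheory Set
open scoped Real
open Pool.Agent.W711.HT Pool.Agent.W398.HT

theorem cos_add_I (a b : ℝ) : Complex.cos (a + b * Complex.I) =
    ((Real.cos a * Real.cosh b : ℝ) : ℂ) - ((Real.sin a * Real.sinh b : ℝ) : ℂ) * Complex.I := by
  rw [Complex.cos_add_mul_I]; push_cast; ring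

theorem cos_sub_I (a b : ℝ) : Complex.cos (a - b * Complex.I) =
    ((Real.cos a * Real.cosh b : ℝ) : ℂ) + ((Real.sin a * Real.sinh b : ℝ) : ℂ) * Complex.I := by
  have := cos_add_I a (-b)
  rw [Real.cosh_neg, Real.sinh_neg] at this
  rw [show (a : ℂ) - b * Complex.I = a + ((-b : ℝ) : ℂ) * Complex.I by push_cast; ring, this]
  push_cast; ring

theorem quot_mem {c s : ℝ} (hc : 0 < c) :
    ((c : ℂ) + s * Complex.I) / ((c : ℂ) - s * Complex.I) ∈ Complex.slitPlane := by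
  have hpos : 0 < c ^ 2 + s ^ 2 := by positivity
  have hne : ((c : ℂ) - s * Complex.I) ≠ 0 := by
    intro h
    have := congrArg Complex.re h
    simp at this
    exact hc.ne' this
  have key : ((c : ℂ) + s * Complex.I) / ((c : ℂ) - s * Complex.I) =
      (((c ^ 2 - s ^ 2) / (c ^ 2 + s ^ 2) : ℝ) : ℂ) + ((2 * c * s / (c ^ 2 + s ^ 2) : ℝ) : ℂ) * Complex.I := by
    rw [div_eq_iff hne]
    have h2 : ((c : ℂ) ^ 2 + (s : ℂ) ^ 2) ≠ 0 := by exact_mod_cast hpos.ne'
    push_cast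
    field_simp
    ring_nf
    rw [Complex.I_sq]
    ring
  rw [key, Complex.mem_slitPlane_iff]
  have hre : ((((c ^ 2 - s ^ 2) / (c ^ 2 + s ^ 2) : ℝ) : ℂ) +
      ((2 * c * s / (c ^ 2 + s ^ 2) : ℝ) : ℂ) * Complex.I).re = (c ^ 2 - s ^ 2) / (c ^ 2 + s ^ 2) := by
    rw [Complex.add_re, Complex.ofReal_re, Complex.re_ofReal_mul, Complex.I_re]; ring
  have him : ((((c ^ 2 - s ^ 2) / (c ^ 2 + s ^ 2) : ℝ) : ℂ) +
      ((2 * c * s / (c ^ 2 + s ^ 2) : ℝ) : ℂ) * Complex.I).im = 2 * c * s / (c ^ 2 + s ^ 2) := by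
    rw [Complex.add_im, Complex.ofReal_im, Complex.im_ofReal_mul, Complex.I_im]; ring
  rw [hre, him]
  by_cases hs : s = 0
  · left
    rw [hs]
    have : 0 < c ^ 2 := by positivity
    simp only [ne_eq, OfNat.ofNat_ne_zero, not_false_eq_true, zero_pow, sub_zero, add_zero]
    rw [div_self this.ne']; exact one_pos
  · right
    have : 2 * c * s ≠ 0 := by
      have := hc.ne'
      positivity
    exact div_ne_zero this hpos.ne'

theorem lg_mem {a b : ℝ} (ha : 0 < Real.cos a) : Complex.cos (a + b * Complex.I) ≠ 0 ∧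
    Complex.cos (a - b * Complex.I) ≠ 0 ∧
    Complex.cos (a - b * Complex.I) / Complex.cos (a + b * Complex.I) ∈ Complex.slitPlane := by
  have hc : 0 < Real.cos a * Real.cosh b := mul_pos ha (Real.cosh_pos b)
  rw [cos_add_I, cos_sub_I]
  refine ⟨?_, ?_, quot_mem hc⟩
  · intro h
    have := congrArg Complex.re h
    simp only [Complex.sub_re, Complex.ofReal_re, Complex.re_ofReal_mul, Complex.I_re, mul_zero,
      sub_zero, Complex.zero_re] at this
    exact hc.ne' this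
  · intro h
    have := congrArg Complex.re h
    simp only [Complex.add_re, Complex.ofReal_re, Complex.re_ofReal_mul, Complex.I_re, mul_zero,
      add_zero, Complex.zero_re] at this
    exact hc.ne' this

/-- choice of the radius -/
theorem exists_rho {δ₀ η : ℝ} (h0 : 0 < δ₀) (h1 : δ₀ < 1 / 2) :
    ∃ ρ > 0, ∀ δ ∈ ball (δ₀ : ℂ) ρ, ∀ ψ ∈ ball ((η : ℂ) * Complex.I) ρ,
    ∀ t ∈ Icc (0 : ℝ) 1, G (δ, ψ) t ∈ Complex.slitPlane ∧ QQ (δ, ψ) t ∈ Complex.slitPlane ∧
      kk δ t ∈ Complex.slitPlane := by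
  have key : ∀ᶠ p : ℂ × ℂ in 𝓝 ((δ₀ : ℂ), ((η : ℂ) * Complex.I)), ∀ t ∈ Icc (0 : ℝ) 1,
      G p t ∈ Complex.slitPlane ∧ QQ p t ∈ Complex.slitPlane ∧ kk p.1 t ∈ Complex.slitPlane := by
    apply isCompact_Icc.eventually_forall_of_forall_eventually
    intro t ht
    have hpi := Real.pi_pos
    have ht0 := ht.1
    have ht1 := ht.2
    have hle : π * δ₀ * t < π / 2 := by
      have : δ₀ * t < 1 / 2 := by nlinarith
      nlinarith
    have hge : 0 ≤ π * δ₀ * t := by positivity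
    have hc4 : 0 < Real.cos (π * δ₀ * t) := by
      apply Real.cos_pos_of_mem_Ioo
      constructor <;> linarith
    have hc2 : -1 < Real.cos (2 * π * δ₀ * t) := by
      have : Real.cos (2 * π * δ₀ * t) = 2 * Real.cos (π * δ₀ * t) ^ 2 - 1 := by
        rw [← Real.cos_two_mul]; congr 1; ring
      rw [this]
      have : 0 < Real.cos (π * δ₀ * t) ^ 2 := by positivity
      linarith
    have g1 : G ((δ₀ : ℂ), ((η : ℂ) * Complex.I)) t =
        ((2 * Real.cosh η + 2 * Real.cos (2 * π * δ₀ * t) : ℝ) : ℂ) := by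
      unfold G
      push_cast
      rw [Complex.cos_mul_I]
    have cc := lg_mem (b := η / 2) hc4
    have c1 : (2 * π * (δ₀ : ℂ) * t + (η : ℂ) * Complex.I) / 2 =
        ((π * δ₀ * t : ℝ) : ℂ) + ((η / 2 : ℝ) : ℂ) * Complex.I := by
      push_cast; ring
    have c2 : (2 * π * (δ₀ : ℂ) * t - (η : ℂ) * Complex.I) / 2 =
        ((π * δ₀ * t : ℝ) : ℂ) - ((η / 2 : ℝ) : ℂ) * Complex.I := by
      push_cast; ring
    refine Filter.Eventually.and ?_ (Filter.Eventually.and ?_ ?_)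
    · have hc : ContinuousAt (fun q : (ℂ × ℂ) × ℝ => G q.1 q.2)
          (((δ₀ : ℂ), ((η : ℂ) * Complex.I)), t) := cont_G.continuousAt
      apply hc.eventually_mem
      apply Complex.isOpen_slitPlane.mem_nhds
      simp only
      rw [g1, Complex.ofReal_mem_slitPlane]
      linarith [Real.one_le_cosh η]
    · have hc : ContinuousAt (fun q : (ℂ × ℂ) × ℝ => QQ q.1 q.2)
          (((δ₀ : ℂ), ((η : ℂ) * Complex.I)), t) := by
        unfold QQ
        apply ContinuousAt.div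
        · fun_prop
        · fun_prop
        · simp only
          rw [c1]
          exact cc.1
      apply hc.eventually_mem
      apply Complex.isOpen_slitPlane.mem_nhds
      simp only [QQ]
      rw [c1, c2]
      exact cc.2.2
    · have hc : ContinuousAt (fun q : (ℂ × ℂ) × ℝ => kk q.1.1 q.2)
          (((δ₀ : ℂ), ((η : ℂ) * Complex.I)), t) :=
        (cont_kk.comp (f := fun q : (ℂ × ℂ) × ℝ => (q.1.1, q.2)) (by fun_prop)).continuousAt
      apply hc.eventually_mem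
      apply Complex.isOpen_slitPlane.mem_nhds
      simp only
      rcases ht0.eq_or_lt with h00 | h00
      · have : kk δ₀ t = ((2 * π * δ₀ : ℝ) : ℂ) := by
          rw [← h00]
          unfold kk
          push_cast
          rw [mul_zero, sc_zero]
          ring
        rw [this, Complex.ofReal_mem_slitPlane]
        positivity
      · have hs : 0 < Real.sin (π * δ₀ * t) := by
          apply Real.sin_pos_of_pos_of_lt_pi
          · positivity
          · linarith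
        have : kk δ₀ t = ((2 * Real.sin (π * δ₀ * t) / t : ℝ) : ℂ) := by
          have h1 := sin_kk δ₀ t
          have h2 : (t : ℂ) ≠ 0 := by exact_mod_cast h00.ne'
          push_cast
          rw [eq_div_iff h2, mul_comm, ← h1]
        rw [this, Complex.ofReal_mem_slitPlane]
        positivity
  obtain ⟨ρ, hρ, hsub⟩ := Metric.mem_nhds_iff.1 key
  refine ⟨ρ, hρ, fun δ hδ ψ hψ t ht => ?_⟩
  have hmem : ((δ, ψ) : ℂ × ℂ) ∈ ball ((δ₀ : ℂ), ((η : ℂ) * Complex.I)) ρ := by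
    rw [← ball_prod_same]
    exact ⟨hδ, hψ⟩
  exact hsub hmem t ht

theorem rrd {δ₀ η : ℝ} (h0 : 0 < δ₀) (h1 : δ₀ < 1 / 2) : ∃ ρ > 0,
    (∀ δ ∈ ball (δ₀ : ℂ) ρ, ∀ ψ ∈ ball ((η : ℂ) * Complex.I) ρ,
      DifferentiableAt ℂ (fun p : ℂ × ℂ => rrF p.1 p.2) (δ, ψ)) ∧
    (∀ δ ∈ ball (δ₀ : ℂ) ρ, DifferentiableAt ℂ ssF δ) ∧
    (∀ δ ∈ ball (δ₀ : ℂ) ρ, ∀ ψ ∈ ball ((η : ℂ) * Complex.I) ρ,
      HasDerivAt (fun z => rrF z ψ)
        (Complex.log (2 * Complex.cos ψ + 2 * Complex.cos (2 * π * δ))) δ ∧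
      HasDerivAt (fun z => rrF δ z) (-(1 / (2 * π)) * Lg (2 * π * δ) ψ) ψ ∧
      HasDerivAt ssF (Complex.log (2 * Complex.sin (π * δ))) δ) := by
  obtain ⟨ρ, hρ, hall⟩ := exists_rho (η := η) h0 h1
  have hU : IsOpen (ball (δ₀ : ℂ) ρ ×ˢ ball ((η : ℂ) * Complex.I) ρ) := isOpen_ball.prod isOpen_ball
  have hG : ∀ p ∈ ball (δ₀ : ℂ) ρ ×ˢ ball ((η : ℂ) * Complex.I) ρ, ∀ t ∈ Icc (0 : ℝ) 1,
      G p t ∈ Complex.slitPlane := fun p hp t ht => (hall p.1 hp.1 p.2 hp.2 t ht).1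
  have hQ : ∀ p ∈ ball (δ₀ : ℂ) ρ ×ˢ ball ((η : ℂ) * Complex.I) ρ, ∀ t ∈ Icc (0 : ℝ) 1,
      QQ p t ∈ Complex.slitPlane := fun p hp t ht => (hall p.1 hp.1 p.2 hp.2 t ht).2.1
  have hk : ∀ δ ∈ ball (δ₀ : ℂ) ρ, ∀ t ∈ Icc (0 : ℝ) 1, kk δ t ∈ Complex.slitPlane :=
    fun δ hδ t ht => (hall δ hδ _ (mem_ball_self hρ) t ht).2.2
  refine ⟨ρ, hρ, ?_, ?_, ?_⟩
  · intro δ hδ ψ hψ
    exact (rr_deriv hU hG (δ, ψ) ⟨hδ, hψ⟩).differentiableAt
  · intro δ hδ
    exact (ss_deriv isOpen_ball hk δ hδ).differentiableAt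
  · intro δ hδ ψ hψ
    have hp : ((δ, ψ) : ℂ × ℂ) ∈ ball (δ₀ : ℂ) ρ ×ˢ ball ((η : ℂ) * Complex.I) ρ := ⟨hδ, hψ⟩
    have hd := rr_deriv hU hG (δ, ψ) hp
    refine ⟨?_, ?_, ss_deriv isOpen_ball hk δ hδ⟩
    · have h1 : HasDerivAt (fun z : ℂ => (z, ψ)) ((1 : ℂ), (0 : ℂ)) δ :=
        (hasDerivAt_id δ).prodMk (hasDerivAt_const δ ψ)
      have h2 := hd.comp_hasDerivAt δ h1
      refine h2.congr_deriv ?_
      have h3 := id1 hG (δ, ψ) hp
      have e : Complex.log (G (δ, ψ) 1) = Complex.log (2 * Complex.cos ψ + 2 * Complex.cos (2 * π * δ)) := by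
        unfold G
        push_cast
        rw [mul_one]
      rw [← e, ← h3]
      simp only [add_apply, smul_apply, smul_eq_mul]
      rw [LL_apply hG (δ, ψ) hp]
      simp [LL]
      ring
    · have h1 : HasDerivAt (fun z : ℂ => (δ, z)) ((0 : ℂ), (1 : ℂ)) ψ :=
        (hasDerivAt_const ψ δ).prodMk (hasDerivAt_id ψ)
      have h2 := hd.comp_hasDerivAt ψ h1
      refine h2.congr_deriv ?_
      have h3 := id2 hG hQ (δ, ψ) hp
      simp only at h3
      rw [← h3]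
      simp only [add_apply, smul_apply, smul_eq_mul]
      rw [LL_apply hG (δ, ψ) hp]
      simp [LL]

end Pool.Agent.Y574.CB
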