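import Pool.Agent.Y472.E.Defs
import Pool.Agent.Y641.CB.SD3a
import Pool.Agent.Y574.CB.RR

/-! The base point `(0, 0, i y)`. -/

set_option autoImplicit false

namespace Pool.Agent.Y574.CB

open Filter Topology Metric
open Pool.Agent.W711.HT (rrF ssF Lg bet Rc)
open Pool.Agent.W177.HT (asn sin_asn eq_zero_of_exp norm_one_sub_cos)
open Pool.Agent.Y641.CB (WW aa dl ss an1 an2 an3 cos1 cos2 cos3)
open Pool.Agent.Y472 (dY Rd E0 rhc)
open scoped Real

/-! ### Real numbers -/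

/-- the cosine of the critical angle -/
noncomputable def w0 (y : ℝ) : ℝ := (Real.cosh y - 1) / (3 + Real.cosh y)

/-- the critical angle -/
noncomputable def ph (y : ℝ) : ℝ := Real.arccos (w0 y)

theorem dY_eq (y : ℝ) : dY y = ph y / (2 * π) := rfl

section
variable {y : ℝ} (hy : 0 < y)
include hy

theorem one_lt_C : 1 < Real.cosh y := Real.one_lt_cosh.2 hy.ne'

theorem w0_pos : 0 < w0 y := by
  have := one_lt_C hy
  unfold w0
  apply div_pos <;> linarith

theorem w0_lt : w0 y < 1 := by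
  have := one_lt_C hy
  unfold w0
  rw [div_lt_one (by linarith)]
  linarith

theorem w0_mul : w0 y * (3 + Real.cosh y) = Real.cosh y - 1 := by
  have := one_lt_C hy
  unfold w0
  rw [div_mul_cancel₀ _ (by linarith)]

theorem cos_ph : Real.cos (ph y) = w0 y :=
  Real.cos_arccos (by linarith [w0_pos hy]) (w0_lt hy).le

theorem ph_pos : 0 < ph y := Real.arccos_pos.2 (w0_lt hy)

theorem ph_lt : ph y < π / 2 := by
  have := Real.arccos_lt_pi_div_two.2 (w0_pos hy)
  exact this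

theorem sin_ph_pos : 0 < Real.sin (ph y) :=
  Real.sin_pos_of_pos_of_lt_pi (ph_pos hy) (by linarith [ph_lt hy, Real.pi_pos])

theorem sin_ph_half_pos : 0 < Real.sin (ph y / 2) :=
  Real.sin_pos_of_pos_of_lt_pi (by linarith [ph_pos hy]) (by linarith [ph_lt hy, Real.pi_pos])

theorem cos_ph_half_pos : 0 < Real.cos (ph y / 2) :=
  Real.cos_pos_of_mem_Ioo ⟨by linarith [ph_pos hy, Real.pi_pos], by linarith [ph_lt hy, Real.pi_pos]⟩

theorem sin_sq_half : (2 * Real.sin (ph y / 2)) ^ 2 = 2 - 2 * w0 y := by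
  have h := Real.cos_sq' (ph y / 2)
  have h2 := Real.cos_two_mul (ph y / 2)
  rw [show 2 * (ph y / 2) = ph y by ring, cos_ph hy] at h2
  nlinarith

theorem tan_half : Real.sin (ph y / 2) * Real.cosh (y / 2) = Real.cos (ph y / 2) := by
  have h1 := sin_sq_half hy
  have h2 := Real.cos_two_mul (ph y / 2)
  rw [show 2 * (ph y / 2) = ph y by ring, cos_ph hy] at h2
  have h3 := Real.cosh_two_mul (y / 2)
  have h4 := Real.cosh_sq (y / 2)
  rw [show 2 * (y / 2) = y by ring] at h3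
  have h5 := w0_mul hy
  have hs := sin_ph_half_pos hy
  have hc := cos_ph_half_pos hy
  have hch := Real.cosh_pos (y / 2)
  have h6 : (Real.sin (ph y / 2) * Real.cosh (y / 2)) ^ 2 = Real.cos (ph y / 2) ^ 2 := by
    have e1 : Real.sin (ph y / 2) ^ 2 = (1 - w0 y) / 2 := by linarith
    have e2 : Real.cosh (y / 2) ^ 2 = (Real.cosh y + 1) / 2 := by linarith
    rw [mul_pow, e1, e2]
    linarith
  exact (pow_left_inj₀ (by positivity) hc.le two_ne_zero).1 h6

theorem crit_rel : (2 + 2 * w0 y) ^ 2 = (2 * Real.cosh y - 2 * w0 y) * (2 - 2 * w0 y) := by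
  have := w0_mul hy
  linear_combination 4 * this

theorem ph_gt (hy2 : y ≤ 9 / 5) : 3 * π / 8 < ph y := by
  have hC : Real.cosh y ≤ 33 / 10 := by
    have h1 : Real.cosh y ≤ Real.cosh (9 / 5) := by
      rw [Real.cosh_le_cosh, abs_of_pos hy, abs_of_pos (by norm_num)]; exact hy2
    refine h1.trans ?_
    have h2 : Real.exp (9 / 5) < 61 / 10 := by
      have h3 : Real.exp (9 / 5) ^ 5 < (61 / 10) ^ 5 := by
        rw [← Real.exp_nat_mul]
        have h4 : ((5 : ℕ) : ℝ) * (9 / 5) = ((9 : ℕ) : ℝ) * 1 := by norm_num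
        rw [h4, Real.exp_nat_mul]
        have h5 := Real.exp_one_lt_d9
        calc Real.exp 1 ^ 9 < 2.7182818286 ^ 9 := by
              exact pow_lt_pow_left₀ h5 (Real.exp_pos 1).le (by norm_num)
          _ < _ := by norm_num
      exact lt_of_pow_lt_pow_left₀ 5 (by norm_num) h3
    have h6 : Real.exp (-(9 / 5)) ≤ 1 / (14 / 5) := by
      rw [Real.exp_neg, inv_eq_one_div]
      apply one_div_le_one_div_of_le (by norm_num)
      have := Real.add_one_le_exp (9 / 5 : ℝ)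
      linarith
    rw [Real.cosh_eq]
    linarith
  have hC1 := one_lt_C hy
  have h7 : w0 y ≤ 23 / 63 := by
    unfold w0
    rw [div_le_div_iff₀ (by linarith) (by norm_num)]
    linarith
  have h8 : w0 y < Real.cos (3 * π / 8) := by
    have e1 : Real.cos (3 * π / 8) = √(2 - √2) / 2 := by
      rw [show 3 * π / 8 = π / 2 - π / 8 by ring, Real.cos_pi_div_two_sub, Real.sin_pi_div_eight]
    rw [e1]
    refine lt_of_le_of_lt h7 ?_
    rw [lt_div_iff₀ (by norm_num)]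
    apply Real.lt_sqrt_of_sq_lt
    have h9 : √2 < 1.4143 := by
      rw [Real.sqrt_lt' (by norm_num)]; norm_num
    nlinarith
  have h10 : Real.arccos (Real.cos (3 * π / 8)) = 3 * π / 8 :=
    Real.arccos_cos (by positivity) (by linarith [Real.pi_pos])
  rw [← h10]
  exact Real.arccos_lt_arccos (by linarith [w0_pos hy]) h8 (Real.cos_le_one _)

theorem dY_mem (hy2 : y ≤ 9 / 5) : 3 / 16 < dY y ∧ dY y < 1 / 4 := by
  have h1 := ph_gt hy hy2
  have h2 := ph_lt hy
  have hp := Real.pi_pos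
  rw [dY_eq]
  constructor
  · rw [lt_div_iff₀ (by positivity)]; linarith
  · rw [div_lt_iff₀ (by positivity)]; linarith

end

/-! ### The base point -/

/-- the base point -/
noncomputable def p0 (y : ℝ) : ℂ × ℂ × ℂ := (0, 0, (y : ℂ) * Complex.I)

section
variable {y : ℝ} (hy : 0 < y)
include hy

theorem D0_ne : (1 + Complex.cos (p0 y).2.2 + Complex.cos (p0 y).1 + Complex.cos (p0 y).2.1) ≠ 0 := by
  have h1 := one_lt_C hy
  have : (1 + Complex.cos (p0 y).2.2 + Complex.cos (p0 y).1 + Complex.cos (p0 y).2.1) =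
      ((3 + Real.cosh y : ℝ) : ℂ) := by
    simp only [p0, Complex.cos_mul_I, Complex.cos_zero]
    push_cast; ring
  rw [this]
  exact_mod_cast (by linarith : (3 + Real.cosh y) ≠ 0)

omit hy in
theorem WW_p0 : WW (p0 y) = ((w0 y : ℝ) : ℂ) := by
  unfold WW w0
  simp only [p0, Complex.cos_mul_I, Complex.cos_zero]
  push_cast
  congr 1 <;> ring

theorem WW_an : AnalyticAt ℂ WW (p0 y) := by
  unfold WW
  apply AnalyticAt.div
  · exact (cos3 _).sub ((cos1 _).mul (cos2 _))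
  · exact ((analyticAt_const.add (cos3 _)).add (cos1 _)).add (cos2 _)
  · exact D0_ne hy

theorem asn_w0 : asn ((w0 y : ℝ) : ℂ) = ((π / 2 - ph y : ℝ) : ℂ) := by
  have h0 := w0_pos hy
  have h1 := w0_lt hy
  have hsq : 0 < 1 - w0 y ^ 2 := by nlinarith
  unfold asn
  have e1 : Complex.exp (Complex.log (1 - ((w0 y : ℝ) : ℂ) ^ 2) / 2) = ((Real.sin (ph y) : ℝ) : ℂ) := by
    have e2 : (1 - ((w0 y : ℝ) : ℂ) ^ 2) = ((1 - w0 y ^ 2 : ℝ) : ℂ) := by push_cast; ring
    have e3 : Real.sin (ph y) = √(1 - w0 y ^ 2) := by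
      rw [ph, Real.sin_arccos]
    rw [e2, ← Complex.ofReal_log hsq.le, show ((Real.log (1 - w0 y ^ 2) : ℝ) : ℂ) / 2 =
      ((Real.log (1 - w0 y ^ 2) / 2 : ℝ) : ℂ) by push_cast; ring, ← Complex.ofReal_exp, e3,
      Real.exp_half, Real.exp_log hsq]
  rw [e1]
  have e4 : Complex.I * ((w0 y : ℝ) : ℂ) + ((Real.sin (ph y) : ℝ) : ℂ) =
      Complex.exp (((π / 2 - ph y : ℝ) : ℂ) * Complex.I) := by
    rw [Complex.exp_mul_I, ← Complex.ofReal_cos, ← Complex.ofReal_sin, Real.cos_pi_div_two_sub,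
      Real.sin_pi_div_two_sub, cos_ph hy]
    ring
  rw [e4, Complex.log_exp]
  · rw [show -Complex.I * (((π / 2 - ph y : ℝ) : ℂ) * Complex.I) =
      -(Complex.I * Complex.I) * ((π / 2 - ph y : ℝ) : ℂ) by ring, Complex.I_mul_I]
    ring
  · have := ph_lt hy
    have := ph_pos hy
    rw [Complex.im_ofReal_mul, Complex.I_im]
    linarith [Real.pi_pos]
  · have := ph_lt hy
    have := ph_pos hy
    rw [Complex.im_ofReal_mul, Complex.I_im]
    linarith [Real.pi_pos]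

theorem asn_an : AnalyticAt ℂ asn ((w0 y : ℝ) : ℂ) := by
  have h0 := w0_pos hy
  have h1 := w0_lt hy
  have hsq : 0 < 1 - w0 y ^ 2 := by nlinarith
  unfold asn
  have e2 : (1 - ((w0 y : ℝ) : ℂ) ^ 2) = ((1 - w0 y ^ 2 : ℝ) : ℂ) := by push_cast; ring
  have a1 : AnalyticAt ℂ (fun w : ℂ => Complex.log (1 - w ^ 2)) ((w0 y : ℝ) : ℂ) := by
    apply AnalyticAt.clog
    · fun_prop
    · rw [e2, Complex.ofReal_mem_slitPlane]; exact hsq
  have a2 : AnalyticAt ℂ (fun w : ℂ => Complex.I * w + Complex.exp (Complex.log (1 - w ^ 2) / 2))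
      ((w0 y : ℝ) : ℂ) := by
    apply AnalyticAt.add (by fun_prop)
    apply AnalyticAt.cexp'
    apply AnalyticAt.div a1 analyticAt_const (by norm_num)
  apply AnalyticAt.mul analyticAt_const
  apply AnalyticAt.clog a2
  rw [e2, ← Complex.ofReal_log hsq.le, show ((Real.log (1 - w0 y ^ 2) : ℝ) : ℂ) / 2 =
      ((Real.log (1 - w0 y ^ 2) / 2 : ℝ) : ℂ) by push_cast; ring, ← Complex.ofReal_exp]
  left
  rw [Complex.add_re, Complex.ofReal_re, Complex.mul_re, Complex.I_re, Complex.I_im, Complex.ofReal_im]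
  have := Real.exp_pos (Real.log (1 - w0 y ^ 2) / 2)
  linarith

theorem aa_p0 : aa (p0 y) = ((π / 2 - ph y : ℝ) : ℂ) := by
  rw [aa, WW_p0, asn_w0 hy]

theorem aa_an : AnalyticAt ℂ aa (p0 y) := by
  unfold aa
  apply AnalyticAt.fun_comp (f := WW) (g := asn) _ (WW_an hy)
  rw [WW_p0]; exact asn_an hy

theorem dl_p0 : dl (p0 y).1 (p0 y).2.1 (p0 y).2.2 = ((dY y : ℝ) : ℂ) := by
  rw [dl, show ((p0 y).1, (p0 y).2.1, (p0 y).2.2) = p0 y from rfl, aa_p0 hy, dY_eq]
  have := Real.pi_ne_zero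
  push_cast
  field_simp
  ring

theorem dl_an : AnalyticAt ℂ (fun p : ℂ × ℂ × ℂ => dl p.1 p.2.1 p.2.2) (p0 y) := by
  unfold dl
  apply analyticAt_const.sub
  apply AnalyticAt.div (aa_an hy) analyticAt_const
  simp [Real.pi_ne_zero]

theorem dcos_ev : ∀ᶠ p : ℂ × ℂ × ℂ in 𝓝 (p0 y), Complex.cos (2 * π * dl p.1 p.2.1 p.2.2) = WW p := by
  have h0 := w0_pos hy
  have h1 := w0_lt hy
  have hsq : 0 < 1 - w0 y ^ 2 := by nlinarith
  have h : ∀ᶠ p : ℂ × ℂ × ℂ in 𝓝 (p0 y), 1 - WW p ^ 2 ≠ 0 := by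
    have : ContinuousAt (fun p : ℂ × ℂ × ℂ => 1 - WW p ^ 2) (p0 y) :=
      continuousAt_const.sub ((WW_an hy).continuousAt.pow 2)
    apply this.eventually_ne
    rw [WW_p0]
    exact_mod_cast hsq.ne'
  filter_upwards [h] with p hp
  rw [Pool.Agent.Y641.CB.two_pi_dl, Complex.cos_pi_div_two_sub, aa, sin_asn _ hp]

theorem dcrit_ev : ∀ᶠ p : ℂ × ℂ × ℂ in 𝓝 (p0 y),
    Complex.log (2 * Complex.cos p.1 + 2 * Complex.cos (2 * π * dl p.1 p.2.1 p.2.2)) +
      Complex.log (2 * Complex.cos p.2.1 + 2 * Complex.cos (2 * π * dl p.1 p.2.1 p.2.2)) =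
      Complex.log (2 * Complex.cos p.2.2 - 2 * Complex.cos (2 * π * dl p.1 p.2.1 p.2.2)) +
      2 * Complex.log (2 * Complex.sin (π * dl p.1 p.2.1 p.2.2)) := by
  have hw0 := w0_pos hy
  have hw1 := w0_lt hy
  have hC := one_lt_C hy
  have hdl := (dl_an hy).continuousAt
  have cos_an_dl : ContinuousAt (fun p : ℂ × ℂ × ℂ => Complex.cos (2 * π * dl p.1 p.2.1 p.2.2))
      (p0 y) := Complex.continuous_cos.continuousAt.comp' (continuousAt_const.mul hdl)
  have sin_an_dl : ContinuousAt (fun p : ℂ × ℂ × ℂ => Complex.sin (π * dl p.1 p.2.1 p.2.2))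
      (p0 y) := Complex.continuous_sin.continuousAt.comp' (continuousAt_const.mul hdl)
  have c1 : ContinuousAt (fun p : ℂ × ℂ × ℂ => 2 * Complex.cos p.1 +
      2 * Complex.cos (2 * π * dl p.1 p.2.1 p.2.2)) (p0 y) :=
    (by fun_prop : ContinuousAt (fun p : ℂ × ℂ × ℂ => 2 * Complex.cos p.1) (p0 y)).add
      (continuousAt_const.mul cos_an_dl)
  have c2 : ContinuousAt (fun p : ℂ × ℂ × ℂ => 2 * Complex.cos p.2.1 +
      2 * Complex.cos (2 * π * dl p.1 p.2.1 p.2.2)) (p0 y) :=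
    (by fun_prop : ContinuousAt (fun p : ℂ × ℂ × ℂ => 2 * Complex.cos p.2.1) (p0 y)).add
      (continuousAt_const.mul cos_an_dl)
  have c4 : ContinuousAt (fun p : ℂ × ℂ × ℂ => 2 * Complex.cos p.2.2 -
      2 * Complex.cos (2 * π * dl p.1 p.2.1 p.2.2)) (p0 y) :=
    (by fun_prop : ContinuousAt (fun p : ℂ × ℂ × ℂ => 2 * Complex.cos p.2.2) (p0 y)).sub
      (continuousAt_const.mul cos_an_dl)
  have c3 : ContinuousAt (fun p : ℂ × ℂ × ℂ => 2 * Complex.sin (π * dl p.1 p.2.1 p.2.2)) (p0 y) :=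
    continuousAt_const.mul sin_an_dl
  have vc : Complex.cos (2 * π * dl (p0 y).1 (p0 y).2.1 (p0 y).2.2) = ((w0 y : ℝ) : ℂ) := by
    rw [(dcos_ev hy).self_of_nhds, WW_p0]
  have v1 : 2 * Complex.cos (p0 y).1 + 2 * Complex.cos (2 * π *
      dl (p0 y).1 (p0 y).2.1 (p0 y).2.2) = ((2 + 2 * w0 y : ℝ) : ℂ) := by
    rw [vc]; simp [p0]
  have v2 : 2 * Complex.cos (p0 y).2.1 + 2 * Complex.cos (2 * π *
      dl (p0 y).1 (p0 y).2.1 (p0 y).2.2) = ((2 + 2 * w0 y : ℝ) : ℂ) := by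
    rw [vc]; simp [p0]
  have v4 : 2 * Complex.cos (p0 y).2.2 - 2 * Complex.cos (2 * π *
      dl (p0 y).1 (p0 y).2.1 (p0 y).2.2) = ((2 * Real.cosh y - 2 * w0 y : ℝ) : ℂ) := by
    rw [vc]; simp [p0, Complex.cos_mul_I]
  have v3 : 2 * Complex.sin (π * dl (p0 y).1 (p0 y).2.1 (p0 y).2.2) =
      ((2 * Real.sin (ph y / 2) : ℝ) : ℂ) := by
    rw [dl_p0 hy, dY_eq]
    have := Real.pi_ne_zero
    rw [show (π : ℂ) * ((ph y / (2 * π) : ℝ) : ℂ) = ((ph y / 2 : ℝ) : ℂ) by
      push_cast; field_simp]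
    push_cast; ring
  have hs2 : 0 < 2 * Real.sin (ph y / 2) := by linarith [sin_ph_half_pos hy]
  have l1 : ContinuousAt (fun p : ℂ × ℂ × ℂ => Complex.log (2 * Complex.cos p.1 +
      2 * Complex.cos (2 * π * dl p.1 p.2.1 p.2.2))) (p0 y) := by
    apply c1.clog
    rw [v1, Complex.ofReal_mem_slitPlane]; linarith
  have l2 : ContinuousAt (fun p : ℂ × ℂ × ℂ => Complex.log (2 * Complex.cos p.2.1 +
      2 * Complex.cos (2 * π * dl p.1 p.2.1 p.2.2))) (p0 y) := by
    apply c2.clog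
    rw [v2, Complex.ofReal_mem_slitPlane]; linarith
  have l4 : ContinuousAt (fun p : ℂ × ℂ × ℂ => Complex.log (2 * Complex.cos p.2.2 -
      2 * Complex.cos (2 * π * dl p.1 p.2.1 p.2.2))) (p0 y) := by
    apply c4.clog
    rw [v4, Complex.ofReal_mem_slitPlane]; linarith
  have l3 : ContinuousAt (fun p : ℂ × ℂ × ℂ =>
      Complex.log (2 * Complex.sin (π * dl p.1 p.2.1 p.2.2))) (p0 y) := by
    apply c3.clog
    rw [v3, Complex.ofReal_mem_slitPlane]; exact hs2
  set f : ℂ × ℂ × ℂ → ℂ := fun p => Complex.log (2 * Complex.cos p.1 +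
      2 * Complex.cos (2 * π * dl p.1 p.2.1 p.2.2)) + Complex.log (2 * Complex.cos p.2.1 +
      2 * Complex.cos (2 * π * dl p.1 p.2.1 p.2.2)) - (Complex.log (2 * Complex.cos p.2.2 -
      2 * Complex.cos (2 * π * dl p.1 p.2.1 p.2.2)) +
      2 * Complex.log (2 * Complex.sin (π * dl p.1 p.2.1 p.2.2)))
    with hf
  have lf : ContinuousAt f (p0 y) := (l1.add l2).sub (l4.add (continuousAt_const.mul l3))
  have f0 : f (p0 y) = 0 := by
    simp only [hf]
    rw [v1, v2, v3, v4, ← Complex.ofReal_log (by linarith), ← Complex.ofReal_log (by linarith),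
      ← Complex.ofReal_log hs2.le]
    have h1 : Real.log (2 + 2 * w0 y) + Real.log (2 + 2 * w0 y) -
        (Real.log (2 * Real.cosh y - 2 * w0 y) + 2 * Real.log (2 * Real.sin (ph y / 2))) = 0 := by
      have h2 : 2 * Real.log (2 * Real.sin (ph y / 2)) = Real.log (2 - 2 * w0 y) := by
        rw [← sin_sq_half hy, Real.log_pow]; push_cast; ring
      have h3 : Real.log (2 + 2 * w0 y) + Real.log (2 + 2 * w0 y) = Real.log ((2 + 2 * w0 y) ^ 2) := by
        rw [Real.log_pow]; push_cast; ring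
      rw [h2, h3, crit_rel hy, Real.log_mul (by linarith) (by linarith)]
      ring
    exact_mod_cast congrArg (fun r : ℝ => (r : ℂ)) h1
  have e1 : ∀ᶠ p in 𝓝 (p0 y), ‖f p‖ < 1 := by
    apply (lf.norm).eventually_lt_const
    change ‖f (p0 y)‖ < 1
    rw [f0]; simp
  have n1 := c1.eventually_ne (y := 0) (by rw [v1]; exact_mod_cast (by linarith : (2 + 2 * w0 y) ≠ 0))
  have n2 := c2.eventually_ne (y := 0) (by rw [v2]; exact_mod_cast (by linarith : (2 + 2 * w0 y) ≠ 0))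
  have n3 := c3.eventually_ne (y := 0) (by rw [v3]; exact_mod_cast hs2.ne')
  have n5 := c4.eventually_ne (y := 0) (by
    rw [v4]; exact_mod_cast (by linarith : (2 * Real.cosh y - 2 * w0 y) ≠ 0))
  have n4 : ∀ᶠ p : ℂ × ℂ × ℂ in 𝓝 (p0 y),
      1 + Complex.cos p.2.2 + Complex.cos p.1 + Complex.cos p.2.1 ≠ 0 := by
    have : ContinuousAt (fun p : ℂ × ℂ × ℂ =>
        1 + Complex.cos p.2.2 + Complex.cos p.1 + Complex.cos p.2.1) (p0 y) := by
      fun_prop
    exact this.eventually_ne (D0_ne hy)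
  filter_upwards [e1, n1, n2, n3, n4, n5, dcos_ev hy] with p hp n1 n2 n3 n4 n5 hd
  have key : f p = 0 := by
    apply eq_zero_of_exp _ _ hp
    simp only [hf]
    rw [Complex.exp_sub, Complex.exp_add, Complex.exp_add, Complex.exp_log n1,
      Complex.exp_log n2, Complex.exp_log n5,
      show 2 * Complex.log (2 * Complex.sin (π * dl p.1 p.2.1 p.2.2)) =
      ((2:ℕ):ℂ) * Complex.log (2 * Complex.sin (π * dl p.1 p.2.1 p.2.2)) by push_cast; ring,
      Complex.exp_nat_mul, Complex.exp_log n3]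
    rw [div_eq_one_iff_eq (mul_ne_zero n5 (pow_ne_zero 2 n3))]
    have h1 : 2 * Complex.sin (π * dl p.1 p.2.1 p.2.2) ^ 2 =
        1 - Complex.cos (2 * π * dl p.1 p.2.1 p.2.2) := by
      rw [show (2 * π * dl p.1 p.2.1 p.2.2 : ℂ) = 2 * (π * dl p.1 p.2.1 p.2.2) by ring,
        Complex.cos_two_mul, Complex.sin_sq]
      ring
    have h2 : (2 * Complex.sin (π * dl p.1 p.2.1 p.2.2)) ^ 2 =
        2 * (1 - Complex.cos (2 * π * dl p.1 p.2.1 p.2.2)) := by
      rw [← h1]; ring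
    rw [h2, hd]
    have h3 : WW p * (1 + Complex.cos p.2.2 + Complex.cos p.1 + Complex.cos p.2.1) =
        Complex.cos p.2.2 - Complex.cos p.1 * Complex.cos p.2.1 := by
      rw [WW, div_mul_cancel₀ _ n4]
    linear_combination 4 * h3
  have := key
  simp only [hf, sub_eq_zero] at this
  exact this

end

end Pool.Agent.Y574.CB
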