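import Pool.Agent.Y574.CB.Base
import Pool.Agent.Y641.CB.SD3

/-! The derivatives of the critical value at the base point. -/

set_option autoImplicit false

namespace Pool.Agent.Y574.CB

open Filter Topology Metric
open Pool.Agent.W711.HT (rrF ssF Lg bet Rc)
open Pool.Agent.Y641.CB (WW aa dl ss an1 an2 an3 cos1 cos2 cos3 GG slice1 slice3 l1 l3)
open Pool.Agent.Y472 (dY Rd E0 rhc)
open scoped Real

/-- the derivative of `Lg` along a curve -/
theorem Lg_comp {u z : ℂ → ℂ} {u' z' t : ℂ} (hu : HasDerivAt u u' t) (hz : HasDerivAt z z' t)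
    (h1 : Complex.cos ((u t + z t) / 2) ≠ 0) (h2 : Complex.cos ((u t - z t) / 2) ≠ 0)
    (h3 : Complex.cos ((u t - z t) / 2) / Complex.cos ((u t + z t) / 2) ∈ Complex.slitPlane) :
    HasDerivAt (fun t => Lg (u t) (z t))
      ((Complex.sin (u t) * z' + Complex.sin (z t) * u') / (Complex.cos (u t) + Complex.cos (z t))) t := by
  have d1 : HasDerivAt (fun t : ℂ => Complex.cos ((u t - z t) / 2))
      (-Complex.sin ((u t - z t) / 2) * ((u' - z') / 2)) t := ((hu.sub hz).div_const 2).ccos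
  have d2 : HasDerivAt (fun t : ℂ => Complex.cos ((u t + z t) / 2))
      (-Complex.sin ((u t + z t) / 2) * ((u' + z') / 2)) t := ((hu.add hz).div_const 2).ccos
  have d3 := (d1.fun_div d2 h1).clog h3
  set a := (u t - z t) / 2 with ha
  set b := (u t + z t) / 2 with hb
  have e1 : Complex.sin (u t) = Complex.sin a * Complex.cos b + Complex.cos a * Complex.sin b := by
    rw [← Complex.sin_add]; congr 1; rw [ha, hb]; ring
  have e1' : Complex.sin (z t) = Complex.sin b * Complex.cos a - Complex.cos b * Complex.sin a := by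
    rw [← Complex.sin_sub]; congr 1; rw [ha, hb]; ring
  have e2 : Complex.cos (u t) + Complex.cos (z t) = 2 * Complex.cos a * Complex.cos b := by
    have a1 : Complex.cos (u t) = Complex.cos (a + b) := by congr 1; rw [ha, hb]; ring
    have a2 : Complex.cos (z t) = Complex.cos (b - a) := by congr 1; rw [ha, hb]; ring
    rw [a1, a2, Complex.cos_add, Complex.cos_sub]; ring
  change HasDerivAt (fun t => Complex.log (Complex.cos ((u t - z t) / 2) / Complex.cos ((u t + z t) / 2)))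
    _ t
  refine d3.congr_deriv ?_
  rw [e1, e1', e2]
  field_simp
  ring

theorem GG_an {a : ℂ × ℂ × ℂ → ℂ} {p : ℂ × ℂ × ℂ} (ha : AnalyticAt ℂ a p) (l : ℂ × ℂ × ℂ →L[ℂ] ℂ)
    (h1 : Complex.cos ((π / 2 - a p + l p) / 2) ≠ 0)
    (h3 : Complex.cos ((π / 2 - a p - l p) / 2) / Complex.cos ((π / 2 - a p + l p) / 2) ∈
      Complex.slitPlane) : AnalyticAt ℂ (GG a l) p := by
  unfold GG Lg
  have hl : AnalyticAt ℂ (fun p => l p) p := l.analyticAt p
  have hu : AnalyticAt ℂ (fun p => π / 2 - a p) p := analyticAt_const.sub ha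
  have k1 : AnalyticAt ℂ (fun p => Complex.cos ((π / 2 - a p - l p) / 2)) p :=
    Complex.analyticAt_cos.fun_comp ((hu.sub hl).div analyticAt_const (by norm_num))
  have k2 : AnalyticAt ℂ (fun p => Complex.cos ((π / 2 - a p + l p) / 2)) p :=
    Complex.analyticAt_cos.fun_comp ((hu.add hl).div analyticAt_const (by norm_num))
  apply analyticAt_const.mul
  exact AnalyticAt.clog (k1.fun_div k2 h1) h3

section
variable {y : ℝ} (hy : 0 < y)
include hy

/-- first variable -/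
theorem cond1 : Complex.cos ((π / 2 - aa (p0 y) + l1 (p0 y)) / 2) ≠ 0 ∧
    Complex.cos ((π / 2 - aa (p0 y) - l1 (p0 y)) / 2) ≠ 0 ∧
    Complex.cos ((π / 2 - aa (p0 y) - l1 (p0 y)) / 2) / Complex.cos ((π / 2 - aa (p0 y) + l1 (p0 y)) / 2) ∈
      Complex.slitPlane := by
  have h := lg_mem (a := ph y / 2) (b := 0) (cos_ph_half_pos hy)
  have e1 : (π / 2 - aa (p0 y) + l1 (p0 y)) / 2 = ((ph y / 2 : ℝ) : ℂ) + ((0 : ℝ) : ℂ) * Complex.I := by
    rw [aa_p0 hy]
    show (π / 2 - ((π / 2 - ph y : ℝ) : ℂ) + (0 : ℂ)) / 2 = _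
    push_cast; ring
  have e2 : (π / 2 - aa (p0 y) - l1 (p0 y)) / 2 = ((ph y / 2 : ℝ) : ℂ) - ((0 : ℝ) : ℂ) * Complex.I := by
    rw [aa_p0 hy]
    show (π / 2 - ((π / 2 - ph y : ℝ) : ℂ) - (0 : ℂ)) / 2 = _
    push_cast; ring
  rw [e1, e2]
  exact h

/-- third variable -/
theorem cond3 : Complex.cos ((π / 2 - -aa (p0 y) + l3 (p0 y)) / 2) ≠ 0 ∧
    Complex.cos ((π / 2 - -aa (p0 y) - l3 (p0 y)) / 2) ≠ 0 ∧
    Complex.cos ((π / 2 - -aa (p0 y) - l3 (p0 y)) / 2) /
      Complex.cos ((π / 2 - -aa (p0 y) + l3 (p0 y)) / 2) ∈ Complex.slitPlane := by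
  have hc : 0 < Real.cos ((π - ph y) / 2) := by
    rw [show (π - ph y) / 2 = π / 2 - ph y / 2 by ring, Real.cos_pi_div_two_sub]
    exact sin_ph_half_pos hy
  have h := lg_mem (a := (π - ph y) / 2) (b := y / 2) hc
  have e1 : (π / 2 - -aa (p0 y) + l3 (p0 y)) / 2 = (((π - ph y) / 2 : ℝ) : ℂ) + ((y / 2 : ℝ) : ℂ) * Complex.I := by
    rw [aa_p0 hy]
    show (π / 2 - -((π / 2 - ph y : ℝ) : ℂ) + ((y : ℂ) * Complex.I)) / 2 = _
    push_cast; ring
  have e2 : (π / 2 - -aa (p0 y) - l3 (p0 y)) / 2 = (((π - ph y) / 2 : ℝ) : ℂ) - ((y / 2 : ℝ) : ℂ) * Complex.I := by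
    rw [aa_p0 hy]
    show (π / 2 - -((π / 2 - ph y : ℝ) : ℂ) - ((y : ℂ) * Complex.I)) / 2 = _
    push_cast; ring
  rw [e1, e2]
  exact h

theorem GG1_an : AnalyticAt ℂ (GG aa l1) (p0 y) := GG_an (aa_an hy) l1 (cond1 hy).1 (cond1 hy).2.2

theorem GG3_an : AnalyticAt ℂ (GG (fun p => -aa p) l3) (p0 y) :=
  GG_an (aa_an hy).neg l3 (cond3 hy).1 (cond3 hy).2.2

/-- the derivative in the first variable is a negative real number -/
theorem GG1_neg : (fderiv ℂ (GG aa l1) (p0 y) (1, 0, 0)).re < 0 := by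
  have h1 := slice1 _ _ (GG1_an hy).differentiableAt
  have haa := slice1 aa _ (aa_an hy).differentiableAt
  set A := fderiv ℂ aa (p0 y) (1, 0, 0) with hA
  have hu : HasDerivAt (fun t : ℂ => π / 2 - aa (t, (p0 y).2.1, (p0 y).2.2)) (-A) (p0 y).1 :=
    haa.const_sub _
  have h2 := Lg_comp hu (hasDerivAt_id (p0 y).1) (cond1 hy).1 (cond1 hy).2.1 (cond1 hy).2.2
  have h3 := h2.const_mul (-(1 / (2 * π)) : ℂ)
  have h4 := h1.unique h3
  rw [h4]
  have e1 : (π / 2 - aa ((p0 y).1, (p0 y).2.1, (p0 y).2.2)) = ((ph y : ℝ) : ℂ) := by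
    rw [show ((p0 y).1, (p0 y).2.1, (p0 y).2.2) = p0 y from rfl, aa_p0 hy]
    push_cast; ring
  have e2 : (p0 y).1 = 0 := rfl
  simp only [id, e1]
  rw [e2, Complex.sin_zero, Complex.cos_zero, ← Complex.ofReal_sin, ← Complex.ofReal_cos, cos_ph hy]
  have e3 : (-(1 / (2 * π)) : ℂ) * ((((Real.sin (ph y) : ℝ) : ℂ) * 1 + 0 * -A) / (((w0 y : ℝ) : ℂ) + 1)) =
      ((-(1 / (2 * π)) * (Real.sin (ph y) / (w0 y + 1)) : ℝ) : ℂ) := by
    push_cast; ring
  rw [e3, Complex.ofReal_re]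
  have := sin_ph_pos hy
  have := w0_pos hy
  have hp := Real.pi_pos
  have : 0 < 1 / (2 * π) * (Real.sin (ph y) / (w0 y + 1)) := by positivity
  linarith

/-- the derivative in the third variable is a negative real number -/
theorem GG3_neg : (fderiv ℂ (GG (fun p => -aa p) l3) (p0 y) (0, 0, 1)).re < 0 := by
  have h1 := slice3 _ _ (GG3_an hy).differentiableAt
  have haa := slice3 aa _ (aa_an hy).differentiableAt
  set A := fderiv ℂ aa (p0 y) (0, 0, 1) with hA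
  have hu : HasDerivAt (fun t : ℂ => π / 2 - -aa ((p0 y).1, (p0 y).2.1, t)) A (p0 y).2.2 := by
    have := haa.fun_neg.const_sub (π / 2 : ℂ)
    rwa [neg_neg] at this
  have h2 := Lg_comp hu (hasDerivAt_id (p0 y).2.2) (cond3 hy).1 (cond3 hy).2.1 (cond3 hy).2.2
  have h3 := h2.const_mul (-(1 / (2 * π)) : ℂ)
  have h4 := h1.unique h3
  rw [h4]
  have e1 : (π / 2 - -aa ((p0 y).1, (p0 y).2.1, (p0 y).2.2)) = ((π - ph y : ℝ) : ℂ) := by
    rw [show ((p0 y).1, (p0 y).2.1, (p0 y).2.2) = p0 y from rfl, aa_p0 hy]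
    push_cast; ring
  -- the derivative of `aa`
  have hC := one_lt_C hy
  have hD : (3 + Complex.cos (p0 y).2.2) ≠ 0 := by
    have : (3 + Complex.cos (p0 y).2.2) = ((3 + Real.cosh y : ℝ) : ℂ) := by
      simp only [p0, Complex.cos_mul_I]
      push_cast; ring
    rw [this]
    exact_mod_cast (by linarith : (3 + Real.cosh y) ≠ 0)
  have k1 : HasDerivAt (fun t : ℂ => (Complex.cos t - 1) / (3 + Complex.cos t))
      ((-Complex.sin (p0 y).2.2 * (3 + Complex.cos (p0 y).2.2) -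
        (Complex.cos (p0 y).2.2 - 1) * (-Complex.sin (p0 y).2.2)) / (3 + Complex.cos (p0 y).2.2) ^ 2)
      (p0 y).2.2 :=
    ((Complex.hasDerivAt_cos _).sub_const 1).fun_div ((Complex.hasDerivAt_cos _).const_add 3) hD
  have k2 : HasDerivAt (fun t : ℂ => Complex.sin (aa ((p0 y).1, (p0 y).2.1, t)))
      (Complex.cos (aa ((p0 y).1, (p0 y).2.1, (p0 y).2.2)) * A) (p0 y).2.2 := haa.csin
  have k3 : (fun t : ℂ => Complex.sin (aa ((p0 y).1, (p0 y).2.1, t))) =ᶠ[𝓝 (p0 y).2.2]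
      (fun t : ℂ => (Complex.cos t - 1) / (3 + Complex.cos t)) := by
    have hw0 := w0_pos hy
    have hw1 := w0_lt hy
    have hsq : 0 < 1 - w0 y ^ 2 := by nlinarith
    have hc : ContinuousAt (fun t : ℂ => 1 - WW ((p0 y).1, (p0 y).2.1, t) ^ 2) (p0 y).2.2 := by
      have c1 : ContinuousAt (fun t : ℂ => WW ((p0 y).1, (p0 y).2.1, t)) (p0 y).2.2 := by
        have := (slice3 WW _ (WW_an hy).differentiableAt).continuousAt
        exact this
      exact continuousAt_const.sub (c1.pow 2)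
    have hne := hc.eventually_ne (y := 0) (by
      rw [show ((p0 y).1, (p0 y).2.1, (p0 y).2.2) = p0 y from rfl, WW_p0]
      exact_mod_cast hsq.ne')
    filter_upwards [hne] with t ht
    rw [aa, Pool.Agent.W177.HT.sin_asn _ ht, WW]
    simp only [p0, Complex.cos_zero]
    congr 1 <;> ring
  have k4 := (k1.congr_of_eventuallyEq k3).unique k2
  have e5 : aa ((p0 y).1, (p0 y).2.1, (p0 y).2.2) = ((π / 2 - ph y : ℝ) : ℂ) := by
    rw [show ((p0 y).1, (p0 y).2.1, (p0 y).2.2) = p0 y from rfl, aa_p0 hy]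
  rw [e5, ← Complex.ofReal_cos, Real.cos_pi_div_two_sub] at k4
  have hs := sin_ph_pos hy
  have hs' : ((Real.sin (ph y) : ℝ) : ℂ) ≠ 0 := by exact_mod_cast hs.ne'
  have e6 : Complex.sin (p0 y).2.2 * A =
      ((4 * Real.sinh y ^ 2 / (3 + Real.cosh y) ^ 2 / Real.sin (ph y) : ℝ) : ℂ) := by
    have e7 : A = ((-Complex.sin (p0 y).2.2 * (3 + Complex.cos (p0 y).2.2) -
        (Complex.cos (p0 y).2.2 - 1) * (-Complex.sin (p0 y).2.2)) / (3 + Complex.cos (p0 y).2.2) ^ 2) /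
        ((Real.sin (ph y) : ℝ) : ℂ) := by
      rw [k4]; field_simp
    rw [e7]
    simp only [p0, Complex.cos_mul_I, Complex.sin_mul_I, ← Complex.ofReal_sinh, ← Complex.ofReal_cosh]
    have hDr : ((3 : ℂ) + ((Real.cosh y : ℝ) : ℂ)) ≠ 0 := by
      exact_mod_cast (by linarith : (3 + Real.cosh y) ≠ 0)
    push_cast at hDr ⊢
    push_cast at hs'
    field_simp
    ring_nf
    rw [Complex.I_sq]
    ring
  simp only [id, e1]
  rw [e6, ← Complex.ofReal_sin, ← Complex.ofReal_cos, Real.sin_pi_sub, Real.cos_pi_sub, cos_ph hy]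
  have e8 : Complex.cos (p0 y).2.2 = ((Real.cosh y : ℝ) : ℂ) := by
    simp only [p0, Complex.cos_mul_I]
    push_cast; ring
  rw [e8]
  have e3 : (-(1 / (2 * π)) : ℂ) * ((((Real.sin (ph y) : ℝ) : ℂ) * 1 +
      ((4 * Real.sinh y ^ 2 / (3 + Real.cosh y) ^ 2 / Real.sin (ph y) : ℝ) : ℂ)) /
      (((-w0 y : ℝ) : ℂ) + ((Real.cosh y : ℝ) : ℂ))) =
      ((-(1 / (2 * π)) * ((Real.sin (ph y) + 4 * Real.sinh y ^ 2 / (3 + Real.cosh y) ^ 2 /
        Real.sin (ph y)) / (-w0 y + Real.cosh y)) : ℝ) : ℂ) := by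
    push_cast; ring
  rw [e3, Complex.ofReal_re]
  have hw1 := w0_lt hy
  have hp := Real.pi_pos
  have h9 : 0 < -w0 y + Real.cosh y := by linarith
  have h10 : 0 ≤ 4 * Real.sinh y ^ 2 / (3 + Real.cosh y) ^ 2 / Real.sin (ph y) := by positivity
  have : 0 < 1 / (2 * π) * ((Real.sin (ph y) + 4 * Real.sinh y ^ 2 / (3 + Real.cosh y) ^ 2 /
        Real.sin (ph y)) / (-w0 y + Real.cosh y)) := by positivity
  linarith

theorem GG_conc : ∃ c : ℝ, 0 < c ∧ ∀ᶠ p : ℂ × ℂ × ℂ in 𝓝 (p0 y),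
    (fderiv ℂ (GG aa l1) p (1, 0, 0)).re ≤ -c ∧
    (fderiv ℂ (GG (fun p => -aa p) l3) p (0, 0, 1)).re ≤ -c := by
  have h1 : ContinuousAt (fun p : ℂ × ℂ × ℂ => (fderiv ℂ (GG aa l1) p (1, 0, 0)).re) (p0 y) := by
    have := (GG1_an hy).fderiv.continuousAt
    exact Complex.continuous_re.continuousAt.comp' (this.clm_apply continuousAt_const)
  have h3 : ContinuousAt (fun p : ℂ × ℂ × ℂ =>
      (fderiv ℂ (GG (fun p => -aa p) l3) p (0, 0, 1)).re) (p0 y) := by
    have := (GG3_an hy).fderiv.continuousAt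
    exact Complex.continuous_re.continuousAt.comp' (this.clm_apply continuousAt_const)
  have n1 := GG1_neg hy
  have n3 := GG3_neg hy
  set r1 := (fderiv ℂ (GG aa l1) (p0 y) (1, 0, 0)).re with hr1
  set r3 := (fderiv ℂ (GG (fun p => -aa p) l3) (p0 y) (0, 0, 1)).re with hr3
  refine ⟨min (-r1) (-r3) / 2, by
    have : 0 < min (-r1) (-r3) := lt_min (by linarith) (by linarith)
    linarith, ?_⟩
  have m1 : min (-r1) (-r3) ≤ -r1 := min_le_left _ _
  have m3 : min (-r1) (-r3) ≤ -r3 := min_le_right _ _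
  have m0 : 0 < min (-r1) (-r3) := lt_min (by linarith) (by linarith)
  have b1 : r1 < -(min (-r1) (-r3) / 2) := by linarith
  have b3 : r3 < -(min (-r1) (-r3) / 2) := by linarith
  have t1 := h1.eventually_lt_const b1
  have t3 := h3.eventually_lt_const b3
  filter_upwards [t1, t3] with p k1 k3
  exact ⟨k1.le, k3.le⟩

/-- the value of the derivative in the third variable -/
theorem GG3_val : GG (fun p => -aa p) l3 (p0 y) =
    -(Complex.I / π) * (Real.arctan (Real.sinh (y / 2)) : ℝ) := by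
  have hs := sin_ph_half_pos hy
  have hch := Real.cosh_pos (y / 2)
  have e1 : (π / 2 - -aa (p0 y) + l3 (p0 y)) / 2 = (((π - ph y) / 2 : ℝ) : ℂ) + ((y / 2 : ℝ) : ℂ) * Complex.I := by
    rw [aa_p0 hy]
    show (π / 2 - -((π / 2 - ph y : ℝ) : ℂ) + ((y : ℂ) * Complex.I)) / 2 = _
    push_cast; ring
  have e2 : (π / 2 - -aa (p0 y) - l3 (p0 y)) / 2 = (((π - ph y) / 2 : ℝ) : ℂ) - ((y / 2 : ℝ) : ℂ) * Complex.I := by
    rw [aa_p0 hy]
    show (π / 2 - -((π / 2 - ph y : ℝ) : ℂ) - ((y : ℂ) * Complex.I)) / 2 = _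
    push_cast; ring
  have hcos : Real.cos ((π - ph y) / 2) = Real.sin (ph y / 2) := by
    rw [show (π - ph y) / 2 = π / 2 - ph y / 2 by ring, Real.cos_pi_div_two_sub]
  have hsin : Real.sin ((π - ph y) / 2) = Real.cos (ph y / 2) := by
    rw [show (π - ph y) / 2 = π / 2 - ph y / 2 by ring, Real.sin_pi_div_two_sub]
  set σ := Real.sinh (y / 2) with hσ
  set k := Real.sin (ph y / 2) * Real.cosh (y / 2) with hk
  have hk0 : 0 < k := mul_pos hs hch
  have ht := tan_half hy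
  rw [← hk] at ht
  have e3 : Complex.cos ((π / 2 - -aa (p0 y) - l3 (p0 y)) / 2) = (k : ℂ) * (1 + σ * Complex.I) := by
    rw [e2, cos_sub_I, hcos, hsin, ← ht, ← hk, ← hσ]
    push_cast; ring
  have e4 : Complex.cos ((π / 2 - -aa (p0 y) + l3 (p0 y)) / 2) = (k : ℂ) * (1 - σ * Complex.I) := by
    rw [e1, cos_add_I, hcos, hsin, ← ht, ← hk, ← hσ]
    push_cast; ring
  set θ := Real.arctan σ with hθ
  have hne : Complex.exp (-((θ : ℂ) * Complex.I)) ≠ 0 := Complex.exp_ne_zero _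
  have hcosθ := Real.cos_arctan_pos σ
  have e5 : (1 + (σ : ℂ) * Complex.I) = Complex.exp ((θ : ℂ) * Complex.I) / ((Real.cos θ : ℝ) : ℂ) := by
    rw [Complex.exp_mul_I, ← Complex.ofReal_cos, ← Complex.ofReal_sin]
    have h1 : Real.sin θ = σ * Real.cos θ := by
      have := Real.tan_arctan σ
      rw [Real.tan_eq_sin_div_cos, div_eq_iff hcosθ.ne'] at this
      exact this
    rw [h1]
    have h2 : ((Real.cos θ : ℝ) : ℂ) ≠ 0 := by exact_mod_cast hcosθ.ne'
    push_cast at h2 ⊢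
    field_simp
  have e6 : (1 - (σ : ℂ) * Complex.I) = Complex.exp (-((θ : ℂ) * Complex.I)) / ((Real.cos θ : ℝ) : ℂ) := by
    rw [show -((θ : ℂ) * Complex.I) = ((-θ : ℝ) : ℂ) * Complex.I by push_cast; ring,
      Complex.exp_mul_I, ← Complex.ofReal_cos, ← Complex.ofReal_sin, Real.cos_neg, Real.sin_neg]
    have h1 : Real.sin θ = σ * Real.cos θ := by
      have := Real.tan_arctan σ
      rw [Real.tan_eq_sin_div_cos, div_eq_iff hcosθ.ne'] at this
      exact this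
    rw [h1]
    have h2 : ((Real.cos θ : ℝ) : ℂ) ≠ 0 := by exact_mod_cast hcosθ.ne'
    push_cast at h2 ⊢
    field_simp
    ring
  have hkc : (k : ℂ) ≠ 0 := by exact_mod_cast hk0.ne'
  have h2 : ((Real.cos θ : ℝ) : ℂ) ≠ 0 := by exact_mod_cast hcosθ.ne'
  have e7 : Lg (π / 2 - -aa (p0 y)) (l3 (p0 y)) = 2 * (θ : ℂ) * Complex.I := by
    unfold Lg
    rw [e3, e4, e5, e6, mul_div_mul_left _ _ hkc, div_div_div_cancel_right₀ h2,
      ← Complex.exp_sub]
    have h3 : (θ : ℂ) * Complex.I - -((θ : ℂ) * Complex.I) = ((2 * θ : ℝ) : ℂ) * Complex.I := by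
      push_cast; ring
    have hθ1 := Real.neg_pi_div_two_lt_arctan σ
    have hθ2 := Real.arctan_lt_pi_div_two σ
    rw [h3, Complex.log_exp]
    · push_cast; ring
    · rw [Complex.im_ofReal_mul, Complex.I_im]; linarith
    · rw [Complex.im_ofReal_mul, Complex.I_im]; linarith
  show -(1 / (2 * π)) * Lg (π / 2 - -aa (p0 y)) (l3 (p0 y)) = _
  rw [e7]
  have := Pool.Agent.W177.HT.pi_ne
  field_simp

end

end Pool.Agent.Y574.CB
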